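import Pool.Agent.MP_ed9623_an.H77.SpecX
import Pool.Agent.MP_ed9623_an.H86.Chart

/-! Existence of a smooth chart at every regular boundary point. -/

open MeasureTheory Filter Topology Set
open scoped ContDiff

namespace Pool.Agent.MP_ed9623_an.H77

open H64 Chart

namespace Chart0

theorem graph {f : P → ℝ} (hs : ContDiff ℝ ∞ f) (f0 : f (0, 0) = 0) (f2 : pd (0, 1) f (0, 0) < 0) :
    ∃ φ : ℝ → ℝ, Gam φ ∧ φ 0 = 0 ∧
      ∀ᶠ p in 𝓝 ((0, 0) : P), (f p < 0 ↔ φ p.1 < p.2) ∧ (f p = 0 ↔ p.2 = φ p.1) := by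
  obtain ⟨φ, g, k⟩ := impl hs f0 f2.ne
  have c := contDiff_infty.1 g.sm 2
  have φ0 : φ 0 = 0 := (k.self_of_nhds.1 f0).symm
  have cr : ContDiff ℝ (2 : ℕ) fun p : P => p.2 - φ p.1 := by fun_prop
  have q2 : ∀ p, pd (0, 1) (fun p : P => p.2 - φ p.1) p = 1 := fun p =>
    HD.pd_eq (by simpa [HD] using ((hasDerivAt_id (0 : ℝ)).const_add p.2).sub_const (φ p.1))
      (cdg_diff cr one_le_two p)
  obtain ⟨W, q0, q1⟩ := exists_div (n := 1) (z₀ := (0, 0)) cr.contDiffAt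
    (contDiff_infty.1 hs 2).contDiffAt (by simp [φ0]) (fun h => by simpa [pd, h] using q2 (0, 0))
    (k.mono fun p a b => a.2 (sub_eq_zero.1 b))
  have q3 : W (0, 0) < 0 := by
    rw [pd_congr_pt _ q1, pd_mul _ (cdg_diff cr one_le_two _) (cd_diff q0 le_rfl), q2] at f2
    simpa [φ0] using f2
  refine ⟨φ, g, φ0, ?_⟩
  filter_upwards [k, q1, q0.continuousAt.eventually (gt_mem_nhds q3)] with p a b d
  refine ⟨⟨fun h => ?_, fun h => b ▸ mul_neg_of_pos_of_neg (sub_pos.2 h) d⟩, a⟩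
  rw [b] at h
  exact sub_pos.1 (pos_of_mul_neg_left h d.le)

end Chart0

theorem rowChart0 : OfChart0 := by
  intro ρ x₀ hs h0 hk
  have m3 : 0 < pd (1, 0) ρ x₀ ^ 2 + pd (0, 1) ρ x₀ ^ 2 := by
    by_contra hc
    refine hk (ContinuousLinearMap.ext fun y => (dir2 ρ x₀ y).trans ?_)
    rw [show pd (1, 0) ρ x₀ = 0 by nlinarith [sq_nonneg (pd (0, 1) ρ x₀)],
      show pd (0, 1) ρ x₀ = 0 by nlinarith [sq_nonneg (pd (1, 0) ρ x₀)]]
    simp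
  obtain ⟨m, m0, m2⟩ : ∃ m, 0 < m ∧ m ^ 2 = pd (1, 0) ρ x₀ ^ 2 + pd (0, 1) ρ x₀ ^ 2 :=
    ⟨_, Real.sqrt_pos.2 m3, Real.sq_sqrt m3.le⟩
  obtain ⟨τ, t1, t2⟩ : ∃ τ : P, pd (1, 0) ρ x₀ = m * τ.2 ∧ pd (0, 1) ρ x₀ = -m * τ.1 :=
    ⟨(-pd (0, 1) ρ x₀ / m, pd (1, 0) ρ x₀ / m), by field_simp, by field_simp⟩
  have t3 : τ.1 ^ 2 + τ.2 ^ 2 = 1 := mul_left_cancel₀ (pow_pos m0 2).ne' (by
    rw [t1, t2] at m2
    linear_combination -m2)
  obtain ⟨φ, g, φ0, h⟩ := Chart0.graph (f := fun p => ρ (mot x₀ τ p))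
    (hs.comp (cd_mot _ _ _)) (by rwa [mot_zero])
    (by rw [pd_mot (contDiff_infty.1 hs 1), mot_zero, t1, t2]; nlinarith)
  have t : Tendsto (fun p : P => (p.1, p.2 + φ p.1)) (𝓝 0) (𝓝 ((0, 0) : P)) := by
    have := g.sm.continuous
    simpa [φ0] using (by fun_prop : Continuous fun p : P => (p.1, p.2 + φ p.1)).tendsto 0
  obtain ⟨r, r0, hr⟩ := Metric.eventually_nhds_iff_ball.1 (t.eventually h)
  rw [← Q_eq_ball] at hr
  exact ⟨τ, φ, r, ⟨t3, g, r0, le_rfl, φ0, fun p hp => (hr p hp).1.trans (lt_add_iff_pos_left _)⟩,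
    fun p hp => (hr p hp).2.trans add_eq_right⟩

end Pool.Agent.MP_ed9623_an.H77
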