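import Pool.Agent.MP_ed9623_an.H77.SpecZ

/-! Interior analyticity at every point, by a translation to the origin. -/

open MeasureTheory Filter Topology Set
open scoped ContDiff InnerProductSpace

namespace Pool.Agent.MP_ed9623_an.H77

open H64

namespace AnaP

theorem tv_tr (x : P) (v : Fin 2 → P → ℝ) (j : Fin 2) :
    tv x (1, 0) (fun _ => 0) v j = fun p => v j (Th x (1, 0) (fun _ => 0) p) := by
  funext p
  fin_cases j <;> simp [tv, Rm, Fin.sum_univ_two]

theorem td_tr (x : P) (d : Fin 2 → Fin 2 → P → ℝ) (j i : Fin 2) :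
    td x (1, 0) (fun _ => 0) d j i = fun p => d j i (Th x (1, 0) (fun _ => 0) p) := by
  funext p
  fin_cases j <;> fin_cases i <;> simp [td, Rm, Fin.sum_univ_two]

theorem Thi_tr (x q : P) : Thi x (1, 0) (fun _ => 0) q = q - x := by
  simp [Thi, Prod.ext_iff]

theorem test_mul {O : Set P} {G χ : P → ℝ} (hG : ∀ p ∈ O, ContDiffAt ℝ ∞ G p) (hχ : Test O χ) :
    Test univ fun p => χ p * G p := by
  refine ⟨contDiff_iff_contDiffAt.2 fun p => ?_, hχ.2.1.mul_right, subset_univ _⟩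
  by_cases hp : p ∈ O
  · exact hχ.1.contDiffAt.mul (hG p hp)
  · have : ∀ᶠ q in 𝓝 p, χ q = 0 := notMem_tsupport_iff_eventuallyEq.1 fun h => hp (hχ.2.2 h)
    refine (contDiffAt_const (c := (0 : ℝ))).congr_of_eventuallyEq ?_
    filter_upwards [this] with q hq
    simp [hq]

/-- An operator on `L²` applied to all components of a jet. -/
noncomputable def TE (T : L →L[ℝ] L) : E6 →L[ℝ] E6 :=
  (PiLp.continuousLinearEquiv 2 ℝ fun _ : Ix => L).symm.toContinuousLinearMap ∘L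
    ContinuousLinearMap.pi fun ix => T ∘L PiLp.proj 2 (fun _ : Ix => L) ix

theorem TE_apply (T : L →L[ℝ] L) (v : E6) (ix : Ix) : TE T v ix = T (v ix) := rfl

end AnaP

open AnaP in
theorem rowAnaP : OfAnaP := by
  intro hTh hTr hC Ω g R U hΩ hg hU ⟨G, hG, hGe⟩ t j x hx
  obtain ⟨r, hc⟩ := exists_ch hΩ hx
  have r0 := hc.r0
  obtain ⟨-, mi, ⟨T, hT⟩, -, hte, -⟩ := hTh x (1, 0) (fun _ => 0) hc.un Gam.zero
  obtain ⟨t1, t2, -, -, t5, t6⟩ := hTr x (1, 0) (fun _ => 0) hc.un Gam.zero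
  have hQ : ∀ p ∈ Q r, x + p ∈ Ω := fun p hp => by
    rw [← Th_tr]
    exact (hc.mem p hp).2 (abs_lt.1 (mem_Q.1 hp).2).1
  have hv : ∀ (v : E6) j, tv x (1, 0) (fun _ => 0) (vl v) j =ᵐ[volume] vl (TE T v) j :=
    fun v j => by rw [tv_tr]; exact (hT _).symm
  have hd : ∀ (v : E6) j i, td x (1, 0) (fun _ => 0) (gj v) j i =ᵐ[volume] gj (TE T v) j i :=
    fun v j i => by rw [td_tr]; exact (hT _).symm
  obtain ⟨χ, hχ, -, c1⟩ := exists_cut (isCompact_closedBall (0 : P) (r / 2)) (isOpen_Q r)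
    (Q_eq_ball r ▸ Metric.closedBall_subset_ball (by linarith))
  have c2 : ∀ p ∈ Q (r / 2), χ p = 1 := fun p hp =>
    c1.self_of_nhdsSet p (Metric.ball_subset_closedBall (Q_eq_ball (r / 2) ▸ hp))
  have hA : ∀ p ∈ Q r, AnalyticAt ℝ (fun q => G (x + q)) p := fun p hp =>
    AnalyticAt.comp (f := fun q => x + q) (hG _ (hQ p hp)) (analyticAt_const.add analyticAt_id)
  have hθ : ∀ θ, Test (Q (r / 2)) θ → Test Ω fun q => θ (Thi x (1, 0) (fun _ => 0) q) :=
    fun θ h => (hte _ θ h).2.mono fun q hq => by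
      have := hQ _ (Q_mono (by linarith) hq)
      rwa [Thi_tr, add_sub_cancel] at this
  have hL : Lv (r / 2) (tv x (1, 0) (fun _ => 0) g) (fun p => χ p * G (x + p))
      fun t => TE T (U t) := by
    refine ⟨(TE T).contDiff.comp hU.1, fun t => mem_VZ.2 ⟨(t2 _ _ (hU.2 t).vf).1.congr (hv _) (hd _),
      fun ix => Eventually.of_forall fun p hp => absurd trivial hp⟩, fun j => ((t1 g).1 hg j).1,
      test_mul (fun p hp => (hA p hp).contDiffAt) hχ, fun t θ h => ?_, fun θ h => ?_⟩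
    · obtain ⟨a, b, c⟩ := t6 _ fun j => h.top.perp Gam.zero j
      have e := (hU.2 t).eq _ (hθ θ h)
      unfold E2 at e ⊢
      rw [← (t5 θ h.1).1, ← b _ (m2_gj _), ← c _ _ (m2_vl _) (m2_vl _),
        ← a _ fun j => ((hU.2 t).mf j).1, di_congr (hd _), tl_congr (hv _) (hv _)] at e
      rw [e, deriv_clm _ hU.1]
      refine ip_congr (fun j => ?_) fun _ => EventuallyEq.rfl
      filter_upwards [hv (deriv U t) j] with p hp
      rw [← hp, tv_tr, tv_tr, tv_tr]
    · obtain ⟨a, -, -⟩ := t6 _ fun j => h.top.perp Gam.zero j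
      rw [a _ hg, (t5 θ h.1).1, hGe _ (hθ θ h), ← integral_add_left_eq_self _ x]
      refine integral_congr_ae (Eventually.of_forall fun p => ?_)
      simp only [Thi_tr, add_sub_cancel_left]
      by_cases hp : p ∈ Q (r / 2)
      · rw [c2 p hp, one_mul]
      · rw [h.off hp, mul_zero, mul_zero]
  have h0 : (0 : P) ∈ Q (r / 2) := Q_eq_ball (r / 2) ▸ Metric.mem_ball_self (by linarith)
  obtain ⟨F, ε, e0, hF, hE⟩ := hC _ _ _ _ hL (by linarith)
    ((hA 0 (Q_mono (by linarith) h0)).congr (by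
      filter_upwards [(isOpen_Q _).mem_nhds h0] with p hp
      rw [c2 p hp, one_mul])) t j
  refine ⟨fun q => F (q - x), ε, e0, AnalyticAt.comp (f := fun q => q - x) (by simpa using hF)
    (analyticAt_id.sub analyticAt_const), ?_⟩
  filter_upwards [mi.quasiMeasurePreserving.ae hE, mi.quasiMeasurePreserving.ae (hv (U t) j)]
    with q a b hq
  rw [tv_tr] at b
  simp only [Th_Thi hc.un] at b
  rw [b, a, Thi_tr]
  rw [Thi_tr, mem_ball_zero_iff, ← dist_eq_norm]
  exact hq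

end Pool.Agent.MP_ed9623_an.H77
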