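import Pool.Agent.MP_ed9623_an.H77.SpecX

/-! The dichotomy at an interior point, in adapted coordinates. -/

open MeasureTheory Filter Topology Set
open scoped ContDiff

namespace Pool.Agent.MP_ed9623_an.H77

open H64

namespace HypL

theorem van2 {O : Set P} {e : P} {f g f' g' m m' : P → ℝ} (hO : IsOpen O) (h : WD O e f g)
    (h' : WD O e f' g') (hf : M2 f) (hg : M2 g) (hf' : M2 f') (hg' : M2 g') (hm : ContDiff ℝ ∞ m)
    (hm' : ContDiff ℝ ∞ m') (hv : Van O fun p => m p * f p + m' p * f' p) :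
    Van O fun p => (m p * g p + pd e m p * f p) + (m' p * g' p + pd e m' p * f' p) := by
  have i : ∀ {f m φ : P → ℝ}, M2 f → ContDiff ℝ ∞ m → Test O φ →
      Integrable fun p => m p * f p * φ p := fun a b c => by
    simpa only [mul_assoc, mul_left_comm] using a.int_mul (c.smul b).m2
  have j : ∀ {f g m φ : P → ℝ}, M2 f → M2 g → ContDiff ℝ ∞ m → Test O φ →
      Integrable fun p => (m p * g p + pd e m p * f p) * φ p := fun a b c d => by
    simp only [add_mul]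
    exact (i b c d).add (i a (sm_pd c e) d)
  refine van_of_int hO (((hg.loc.continuous_mul hm.continuous).add
    (hf.loc.continuous_mul (sm_pd hm e).continuous)).add ((hg'.loc.continuous_mul hm'.continuous).add
    (hf'.loc.continuous_mul (sm_pd hm' e).continuous))) fun φ hφ => ?_
  have a := int_test_congr (g := fun _ => 0) (fun _ => (hφ.pd e).off) hv
  simp only [add_mul (m _ * f _), add_mul (_ + _)] at a ⊢
  rw [integral_add (i hf hm (hφ.pd e)) (i hf' hm' (hφ.pd e)), h.smul hf hg hm φ hφ,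
    h'.smul hf' hg' hm' φ hφ] at a
  rw [integral_add (j hf hg hm hφ) (j hf' hg' hm' hφ)]
  simp only [zero_mul, integral_zero] at a
  linarith

theorem slice (zt : ZtS) {r K : ℝ} {f g : P → ℝ} (hr : 0 < r) (hf : M2 f) (hg : M2 g)
    (h : WD univ (ee 1) f g) (hv : Van (Q r \ Qp 0 r) f) (hK : nm g ^ 2 ≤ K) :
    ∀ᵐ s, s ∈ Ioo 0 r → slY (-r) r f s ≤ K * s := by
  obtain ⟨-, z2, -, -, -, -, z7⟩ := zt r _ _ hr hf hg
  filter_upwards [(z7 (z2 (h.mono (subset_univ _)) hv)).1 r] with s e hs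
  rw [min_self] at e
  rw [mul_comm]
  exact (e hs).trans (mul_le_mul_of_nonneg_left ((hg.set_le _).trans hK) hs.1.le)

theorem vanish (zt : ZtS) (coef : CoefHS) (en : EnHS) {r C m₀ n₀ l₀ : ℝ} {a : Fin 2 → P → ℝ}
    {da : Fin 2 → Fin 2 → P → ℝ} {m n l : P → ℝ} (hr : 0 < r) (hC : 0 ≤ C)
    (va : VF (fun _ => 0) a da) (na : ∀ j, Van (Q r \ Qp 0 r) (a j))
    (ba : ∀ j, ∀ᵐ p, p ∈ Q r → |a j p| ≤ C) (hm : M2 m ∧ HB (Q r) 2 m C ∧ El m m₀)
    (hn : M2 n ∧ HB (Q r) 2 n C ∧ El n n₀) (hl : M2 l ∧ HB (Q r) 2 l C ∧ El l l₀) (m0 : 0 < m₀)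
    (n0 : 0 < n₀) (heq : ∀ᵐ p, m p * da 0 1 p = n p * -da 1 0 p - 2 * l p * da 0 0 p) :
    ∃ r' : ℝ, 0 < r' ∧ ∀ j, Van (Q r') (a j) := by
  obtain ⟨r₁, K, κ, k, ms, ns, nY, lY, r1, r2, cg⟩ := coef r C m₀ n₀ l₀ m n l hr hC hm.1 hn.1 hl.1
    hm.2.1 hn.2.1 hl.2.1 hm.2.2 hn.2.2 hl.2.2 m0 n0
  obtain ⟨a0, b0⟩ := H1O.zero_iff.1 (va.h1 0)
  obtain ⟨a1, b1⟩ := H1O.zero_iff.1 (va.h1 1)
  have wB : WD univ (ee 1) (fun p => -a 1 p) (da 0 0) :=
    (b1 1).2.neg.congr (Eventually.of_forall fun _ _ => rfl) (va.dv.mono fun p hp _ => by linarith)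
  have q0 := sq_nonneg (nm (da 0 0))
  have q1 := sq_nonneg (nm (da 0 1))
  obtain ⟨r₂, r4, vA, vB⟩ := en r₁ K κ (C + nm (da 0 0) ^ 2 + nm (da 0 1) ^ 2) k _ _ _ _ _ _ _ _ _ _ _
    _ r1 cg a0 a1.neg (b0 0).1 (b0 1).1 (b1 0).1.neg ((b0 0).2.mono (subset_univ _))
    ((b0 1).2.mono (subset_univ _)) ((b1 0).2.neg.mono (subset_univ _)) (wB.mono (subset_univ _))
    (by
      filter_upwards [ba 0, ba 1, heq] with p e0 e1 e2 hp
      have hq : p ∈ Q r := Q_mono r2 hp.1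
      exact ⟨by linarith [e0 hq], by rw [abs_neg]; linarith [e1 hq], e2⟩)
    (by
      filter_upwards [slice zt r1 a0 (b0 1).1 (b0 1).2 ((na 0).mono (diff_mono r2))
        (K := C + nm (da 0 0) ^ 2 + nm (da 0 1) ^ 2) (by linarith), slice zt r1 a1.neg (b0 0).1 wB
        ((na 1).neg.mono (diff_mono r2)) (K := C + nm (da 0 0) ^ 2 + nm (da 0 1) ^ 2) (by linarith)]
        with s e e' hs using ⟨e hs, e' hs⟩)
  have sub : Q (min r₂ r) ⊆ Qp 0 r₂ ∪ (Q r \ Qp 0 r) := fun p hp => by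
    by_cases h : 0 < p.2
    · exact Or.inl ⟨Q_mono (min_le_left _ _) hp, h⟩
    · exact Or.inr ⟨Q_mono (min_le_right _ _) hp, fun h' => h h'.2⟩
  have v1 : Van (Qp 0 r₂) (a 1) := vB.neg.congr (Eventually.of_forall fun p => neg_neg _)
  refine ⟨min r₂ r, lt_min r4 hr, fun j => ?_⟩
  fin_cases j
  · exact (vA.union (na 0)).mono sub
  · exact (v1.union (na 1)).mono sub

end HypL

open HypL in
theorem rowHypL : OfHypL := by
  intro zt reg cont coef en r r₀ R a w z f g da dw dz hr h0 va vw vz p1 p2 e1 tr na nw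
  have r0 := half_pos hr
  obtain ⟨C, c0, hC⟩ := reg r (r / 2) R a w z f g da dw dz r0 (half_lt_self hr) va vw vz p1 p2 e1
  have hw := fun j => H1O.zero_iff.1 (vw.h1 j)
  choose u hu using fun j => (cont _ C _ r0 c0 (hw j).1 (hC j).1).1
  choose d hd using fun j i => (cont _ C _ r0 c0 ((hw j).2 i).1 ((hC j).2.1 i)).1
  have tu := fun j => El_iff.1 (hu j)
  have td := fun j i => El_iff.1 (hd j i)
  have tX := fun i => El_iff.1 (El.cont (sm_Xc (0, r₀) i).continuous)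
  have x0 : Xc (0, r₀) 0 0 = 0 := by simp [Xc]
  have x1 : Xc (0, r₀) 1 0 = -r₀ := by simp [Xc]
  have k1 : ∑ j, u j * Xc (0, r₀) j 0 = 0 :=
    (El_iff.2 (tendsto_finsetSum _ fun j _ => (tu j).mul (tX j))).low hr nw
  have k2 := van2 (isOpen_low 0 r) (((hw 0).2 0).2.mono (subset_univ _))
    (((hw 1).2 0).2.mono (subset_univ _)) (hw 0).1 ((hw 0).2 0).1 (hw 1).1 ((hw 1).2 0).1
    (sm_Xc (0, r₀) 0) (sm_Xc (0, r₀) 1) (nw.congr (Eventually.of_forall fun p => by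
      simp only [rd, Fin.sum_univ_two, mul_comm]))
  simp only [pd_Xc] at k2
  have k3 := (El_iff.2 ((((tX 0).mul (td 0 0)).add ((tu 0).const_mul _)).add
    (((tX 1).mul (td 1 0)).add ((tu 1).const_mul _)))).low hr k2
  have k4 : El (Ph (0, r₀) w dw) (∑ j, ∑ i, u j * Xc (0, r₀) i 0 * d j i) :=
    El_iff.2 (tendsto_finsetSum _ fun j _ => tendsto_finsetSum _ fun i _ =>
      ((tu j).mul (tX i)).mul (td j i))
  simp only [Fin.sum_univ_two, x0, x1] at k1 k3 k4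
  norm_num at k3
  by_cases hs : d 1 0 * d 0 1 ≤ 0
  · refine Or.inr fun δ hδ => (k4 δ hδ).imp fun η hη => ⟨hη.1, hη.2.mono fun p a b => ?_⟩
    have := mul_nonpos_of_nonneg_of_nonpos (sq_nonneg r₀) hs
    have e : u 0 * 0 * d 0 0 + u 0 * -r₀ * d 0 1 + (u 1 * 0 * d 1 0 + u 1 * -r₀ * d 1 1) =
        -(r₀ ^ 2 * (d 1 0 * d 0 1)) := by linear_combination d 1 1 * k1 - r₀ * d 0 1 * k3
    linarith [(abs_le.1 (a b)).1]
  have nb := fun j => (van_low (na j)).mono (diff_mono (σ := 0) (half_le_self hr.le))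
  have hp := fun j i => And.intro ((hw j).2 i).1 (And.intro ((hC j).2.1 i) (hd j i))
  have hn := fun j i => And.intro ((hw j).2 i).1.neg
    (And.intro ((hC j).2.1 i).neg (El_iff.2 (td j i).neg))
  have heq : ∀ᵐ p, dw 1 0 p * da 0 1 p = dw 0 1 p * -da 1 0 p - 2 * dw 0 0 p * da 0 0 p := by
    filter_upwards [tr, va.dv, vw.dv] with p e1 e2 e3
    simp only [trc, Fin.sum_univ_two] at e1
    linear_combination e1 - dw 1 1 p * e2 + da 0 0 p * e3
  rcases mul_pos_iff.1 (not_le.1 hs) with h | h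
  · exact Or.inl (vanish zt coef en r0 c0 va nb (fun j => (hC j).2.2) (hp 1 0) (hp 0 1) (hp 0 0) h.1
      h.2 heq)
  · exact Or.inl (vanish zt coef en r0 c0 va nb (fun j => (hC j).2.2) (hn 1 0) (hn 0 1) (hn 0 0)
      (neg_pos.2 h.1) (neg_pos.2 h.2) (heq.mono fun p e => by linear_combination -e))

end Pool.Agent.MP_ed9623_an.H77
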