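import Pool.Agent.MP_ed9623_an.H77.SpecW

/-! The dichotomy at a convex boundary point, in the chart. -/

open MeasureTheory Filter Topology Set
open scoped ContDiff

namespace Pool.Agent.MP_ed9623_an.H77

open H64

namespace Loc

theorem bound (mix : MixS) {γ : ℝ → ℝ} {r₀ R₀ : ℝ} {f : P → ℝ} {d : Fin 2 → P → ℝ}
    (hγ : Gam γ) (h : H1 γ f d) (ht : TY (Q r₀) (d 1) R₀) :
    ∃ M : ℝ, 0 ≤ M ∧ ∀ᵐ p, p ∈ Q r₀ → |f p| ≤ M := by
  obtain ⟨C, c0, -, -, h3⟩ := mix (-r₀) r₀ (-r₀) r₀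
  obtain ⟨g, g1, -, g3⟩ := ht
  refine ⟨_, ?_, h3 f _ (d 1) g h.m ((h.md 0).add ((h.md 1).gmul hγ.deriv)) (h.md 1) g1
    ((h.wd0 hγ).mono (subset_univ _)) (h.wd1.mono (subset_univ _)) g3⟩
  exact mul_nonneg c0 (add_nonneg (add_nonneg (add_nonneg (nm_nonneg _) (nm_nonneg _))
    (nm_nonneg _)) (nm_nonneg _))

theorem vanish (mix : MixS) (zt : ZtS) (coef : CoefS) (en : EnS) {γ : ℝ → ℝ} {r r₀ c C : ℝ}
    {a : Fin 2 → P → ℝ} {da : Fin 2 → Fin 2 → P → ℝ} {n ns nY nYY nYS l lY lYY m : P → ℝ}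
    (hγ : Gam γ) (h2 : 0 < deriv (deriv γ) 0) (h0 : 0 < r₀) (hr : r₀ ≤ r) (va : VF γ a da)
    (na : ∀ j, Van (Q r \ Qp 0 r) (a j)) (ta : ∀ j i, ∃ R, TY (Q r) (da j i) R) (hc : 0 < c)
    (sc : Sc γ r₀ n ns nY nYY nYS l lY lYY m)
    (est : ∀ᵐ p : P, p ∈ Qp 0 r₀ → |n p - c / (1 + deriv γ p.1 ^ 2)| ≤ C * √p.2)
    (heq : ∀ᵐ p : P, m p * -da 0 1 p = n p * (da 1 0 p + deriv γ p.1 * da 1 1 p -
      deriv γ p.1 * (da 0 0 p + deriv γ p.1 * da 0 1 p)) +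
      2 * l p * (da 0 0 p + deriv γ p.1 * da 0 1 p)) :
    ∃ r' : ℝ, 0 < r' ∧ r' ≤ r ∧ ∀ j, Van (Q r') (a j) := by
  obtain ⟨r₁, K, κ, k, r1, r2, cf⟩ := coef γ r₀ c C n ns nY nYY nYS l lY lYY m hγ h2 h0 hc sc est
  have r3 : r₁ ≤ r := r2.trans hr
  have a0 := va.h1 0
  have a1 := va.h1 1
  have g1 := hγ.deriv
  have mY0 := (a0.md 0).add ((a0.md 1).gmul g1)
  have mY1 := (a1.md 0).add ((a1.md 1).gmul g1)
  have mB := a1.m.sub (a0.m.gmul g1)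
  have mBY := mY1.sub ((mY0.gmul g1).add (a0.m.gmul g1.deriv))
  have wBY : WD univ (ee 0) (fun p => a 1 p - deriv γ p.1 * a 0 p) fun p =>
      da 1 0 p + deriv γ p.1 * da 1 1 p - (deriv γ p.1 * (da 0 0 p + deriv γ p.1 * da 0 1 p) +
        deriv (deriv γ) p.1 * a 0 p) := by
    have h := (a0.wd0 hγ).smul a0.m mY0 g1.smP
    simp only [g1.pd0] at h
    exact (a1.wd0 hγ).sub h a1.m mY1 (a0.m.gmul g1) ((mY0.gmul g1).add (a0.m.gmul g1.deriv))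
  have wBS : WD univ (ee 1) (fun p => a 1 p - deriv γ p.1 * a 0 p) fun p =>
      -(da 0 0 p + deriv γ p.1 * da 0 1 p) := by
    have h := a0.wd1.smul a0.m (a0.md 1) g1.smP
    simp only [g1.pd1, zero_mul, add_zero] at h
    exact (a1.wd1.sub h a1.m (a1.md 1) (a0.m.gmul g1) ((a0.md 1).gmul g1)).congr
      (Eventually.of_forall fun _ _ => rfl) (va.dv.mono fun p hp _ => by linarith)
  obtain ⟨M0, m0, b0⟩ := bound mix hγ a0 (ta 0 1).choose_spec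
  obtain ⟨M1, m1, b1⟩ := bound mix hγ a1 (ta 1 1).choose_spec
  obtain ⟨Cg, c0, bg⟩ := g1.bd
  obtain ⟨-, z2, -, -, -, -, z7⟩ := zt r₁ _ _ r1 mB mY0.neg
  have vB : Van (Q r₁ \ Qp 0 r₁) fun p => a 1 p - deriv γ p.1 * a 0 p :=
    ((na 1).sub ((na 0).smul fun p => deriv γ p.1)).mono (diff_mono r3)
  have z8 := (z7 (z2 (wBS.mono (subset_univ _)) vB)).1 r₁
  have n0 := sq_nonneg (nm fun p => -(da 0 0 p + deriv γ p.1 * da 0 1 p))
  have p0 := mul_nonneg c0 m0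
  obtain ⟨r₂, r4, vA, vB'⟩ := en r₁ K κ
    (M0 + M1 + Cg * M0 + nm (fun p => -(da 0 0 p + deriv γ p.1 * da 0 1 p)) ^ 2) k _ _ _ _ _ _ _ _
    (fun p => -a 0 p) _ _ (fun p => -da 0 1 p) _ r1 cf a0.m.neg mB mY0.neg (a0.md 1).neg mBY
    ((a0.wd0 hγ).neg.mono (subset_univ _)) (a0.wd1.neg.mono (subset_univ _))
    (wBY.mono (subset_univ _)) (wBS.mono (subset_univ _))
    (by
      filter_upwards [b0, b1, heq] with p e0 e1 e2 hp
      have hq : p ∈ Q r := Q_mono r3 hp.1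
      have e3 : |deriv γ p.1 * a 0 p| ≤ Cg * M0 := by
        rw [abs_mul]
        exact mul_le_mul (bg _) (e0 hq) (abs_nonneg _) c0
      refine ⟨by rw [abs_neg]; linarith [e0 hq], ?_, by linear_combination e2⟩
      linarith [abs_sub (a 1 p) (deriv γ p.1 * a 0 p), e1 hq])
    (by
      filter_upwards [z8] with s e hs
      rw [min_self] at e
      refine (e hs).trans ?_
      rw [mul_comm]
      exact mul_le_mul_of_nonneg_right ((mY0.neg.set_le _).trans (by linarith)) hs.1.le)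
  have sub : Q (min r₂ r) ⊆ Qp 0 r₂ ∪ (Q r \ Qp 0 r) := fun p hp => by
    by_cases h : 0 < p.2
    · exact Or.inl ⟨Q_mono (min_le_left _ _) hp, h⟩
    · exact Or.inr ⟨Q_mono (min_le_right _ _) hp, fun h' => h h'.2⟩
  have v0 : Van (Qp 0 r₂) (a 0) := vA.neg.congr (Eventually.of_forall fun p => neg_neg _)
  have v1 : Van (Qp 0 r₂) (a 1) := (vB'.add (v0.smul fun p => deriv γ p.1)).congr
    (Eventually.of_forall fun p => sub_add_cancel _ _)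
  refine ⟨min r₂ r, lt_min r4 (h0.trans_le hr), min_le_right _ _, fun j => ?_⟩
  fin_cases j
  · exact (v0.union (na 0)).mono sub
  · exact (v1.union (na 1)).mono sub

end Loc

open Loc in
theorem rowLoc : OfLoc := by
  intro mix zt l2a reg3 tr scal coef en γ r a da w dw z dz hγ h2 hr h
  obtain ⟨G, hG, hE⟩ := l2a γ r a da w dw z dz hγ hr h
  have r0 : 0 < r / 2 := by linarith
  have r1 : r / 2 ≤ r := by linarith
  choose dY dS dYY dYS h3 using fun j => reg3 γ r (r / 2) _ (w j) (G j) (dw j) hγ r0 (by linarith)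
    (hG j).1 (hG j).2.2.choose_spec
  have nw := fun j => (h.nw j).mono (diff_mono (σ := 0) r1)
  obtain ⟨c, C, est, hc⟩ := tr γ (r / 2) w G dw dY dS dYY dYS hγ r0 h.vw
    (fun j => ⟨nw j, (hG j).1.mF, (hG j).2.1.mono fun p hp => (diff_mono r1 hp).2, h3 j⟩)
    fun φ hφ => (hE _ fun j => (hφ.mono (Q_mono r1)).dd hγ j).1 (h.eg φ (hφ.mono (Q_mono r1)))
  obtain ⟨ns, nY, nYY, nYS, lY, lYY, sc⟩ := scal γ (r / 2) w G dw dY dS dYY dYS hγ r0 h.vw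
    fun j => ⟨nw j, h3 j⟩
  have heq : ∀ᵐ p : P, (-(dw 1 0 p + deriv γ p.1 * dw 1 1 p) +
      deriv γ p.1 * (dw 0 0 p + deriv γ p.1 * dw 0 1 p)) * -da 0 1 p =
      -dw 0 1 p * (da 1 0 p + deriv γ p.1 * da 1 1 p -
        deriv γ p.1 * (da 0 0 p + deriv γ p.1 * da 0 1 p)) +
      2 * -(dw 0 0 p + deriv γ p.1 * dw 0 1 p) * (da 0 0 p + deriv γ p.1 * da 0 1 p) := by
    filter_upwards [h.tr, h.va.dv, h.vw.dv] with p e1 e2 e3
    simp only [trc, Fin.sum_univ_two] at e1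
    linear_combination e1 + (deriv γ p.1 * dw 0 1 p - dw 1 1 p) * e2 +
      (deriv γ p.1 * da 0 1 p + da 0 0 p) * e3
  rcases lt_trichotomy c 0 with c0 | c0 | c0
  · obtain ⟨r', a1, a2, a3⟩ := vanish mix zt coef en (c := -c) (C := C) hγ h2 r0 r1 h.va h.na h.ta
      (by linarith) sc.neg (est.mono fun p e hp => by
        rw [← abs_neg, neg_div]
        exact le_of_eq_of_le (by congr 1; ring) (e hp)) (heq.mono fun p e => by
        linear_combination -e)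
    exact ⟨r', a1, a2, Or.inr a3⟩
  · exact ⟨r / 2, r0, r1, Or.inl fun ζ hζ =>
      (hE ζ fun j => (hζ j).mono (Q_mono r1)).2 (hc c0 ζ hζ)⟩
  · obtain ⟨r', a1, a2, a3⟩ := vanish mix zt coef en hγ h2 r0 r1 h.va h.na h.ta c0 sc est heq
    exact ⟨r', a1, a2, Or.inr a3⟩

end Pool.Agent.MP_ed9623_an.H77
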