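import Pool.Agent.MP_ed9623_an.H77.SpecA

/-! Ehrling inequality with finitely many functionals. -/

open Set Metric
open scoped InnerProductSpace

namespace Pool.Agent.MP_ed9623_an.H77

theorem rowEhr : OfEhr := by
  intro H V _ _ _ _ _ _ ι hι ε hε
  obtain ⟨δ, hδ, rfl⟩ : ∃ δ : ℝ, 0 < δ ∧ ε = 2 * δ ^ 2 :=
    ⟨√(ε / 2), by positivity, by rw [Real.sq_sqrt (by positivity)]; ring⟩
  have hK : TotallyBounded (ι '' closedBall 0 1) :=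
    (IsCompactOperator.isCompact_closure_image_closedBall (f := (ι : V →ₗ[ℝ] H)) hι
      1).totallyBounded.subset subset_closure
  obtain ⟨t, ht, hf, hc⟩ := finite_approx_of_totallyBounded hK δ hδ
  obtain ⟨n, f, hn⟩ := hf.fin_embedding
  have hv : ∀ i, ∃ v, ι v = f i := fun i => by
    obtain ⟨v, -, e⟩ := ht (hn ▸ mem_range_self i)
    exact ⟨v, e⟩
  choose v hv using hv
  refine ⟨n, v, (δ ^ 2)⁻¹, by positivity, fun u => ?_⟩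
  rcases eq_or_ne u 0 with rfl | hu
  · simp
  have hN : 0 < ‖u‖ := norm_pos_iff.2 hu
  have h1 : ι (‖u‖⁻¹ • u) ∈ ι '' closedBall 0 1 :=
    ⟨_, by simp [norm_smul, hN.ne'], rfl⟩
  obtain ⟨y, hy, h2⟩ := mem_iUnion₂.1 (hc h1)
  obtain ⟨i, rfl⟩ : y ∈ range f := hn ▸ hy
  rw [← hv, mem_ball, dist_eq_norm] at h2
  have h3 : ‖ι u - ‖u‖ • ι (v i)‖ ≤ δ * ‖u‖ := by
    have : ι u - ‖u‖ • ι (v i) = ‖u‖ • (ι (‖u‖⁻¹ • u) - ι (v i)) := by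
      rw [smul_sub, map_smul, smul_smul, mul_inv_cancel₀ hN.ne', one_smul]
    rw [this, norm_smul, norm_norm, mul_comm]
    exact mul_le_mul_of_nonneg_right h2.le hN.le
  have h4 : ⟪ι u - ‖u‖ • ι (v i), ι u⟫_ℝ ≤ δ * ‖u‖ * ‖ι u‖ :=
    (real_inner_le_norm _ _).trans (mul_le_mul_of_nonneg_right h3 (norm_nonneg _))
  rw [inner_sub_left, real_inner_smul_left, real_inner_self_eq_norm_sq] at h4
  have h5 : ⟪ι (v i), ι u⟫_ℝ ^ 2 ≤ ∑ j, ⟪ι (v j), ι u⟫_ℝ ^ 2 :=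
    Finset.single_le_sum (f := fun j => ⟪ι (v j), ι u⟫_ℝ ^ 2) (fun _ _ => sq_nonneg _)
      (Finset.mem_univ i)
  have h6 := mul_le_mul_of_nonneg_left h5 (show 0 ≤ (δ ^ 2)⁻¹ by positivity)
  generalize ⟪ι (v i), ι u⟫_ℝ = p at h4 h6
  have h7 : 2 * (‖u‖ * p) ≤ δ ^ 2 * ‖u‖ ^ 2 + (δ ^ 2)⁻¹ * p ^ 2 := by
    have e : δ ^ 2 * ‖u‖ ^ 2 + (δ ^ 2)⁻¹ * p ^ 2 - 2 * (‖u‖ * p) = (δ * ‖u‖ - δ⁻¹ * p) ^ 2 := by
      field_simp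
      ring
    linarith [sq_nonneg (δ * ‖u‖ - δ⁻¹ * p)]
  nlinarith [sq_nonneg (δ * ‖u‖ - ‖ι u‖)]

end Pool.Agent.MP_ed9623_an.H77
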